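import Mathlib
import Pool.Agent.W769.SR.Stm

set_option autoImplicit false

namespace Pool.Agent.W797.SR.Allr

open Pool.Agent.W769.SR Metric Set Filter Topology Real

lemma cont1 {p : ℝ} (hp : 0 < p) {φ ψ F : ℂ → ℂ} (hφ : SelfMap φ) (hψ : ContinuousOn ψ (ball 0 1))
    (hF : DifferentiableOn ℂ F (ball 0 1)) :
    ContinuousOn (fun z => ‖F (φ z) * ψ z‖ ^ p) (ball 0 1) := by
  have h1 : ContinuousOn (fun z => F (φ z)) (ball 0 1) :=
    hF.continuousOn.comp hφ.diff.continuousOn hφ.maps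
  exact (h1.mul hψ).norm.rpow_const fun z _ => Or.inr hp.le

lemma cont2 {p : ℝ} (hp : 0 < p) {F : ℂ → ℂ} (hF : DifferentiableOn ℂ F (ball 0 1)) :
    ContinuousOn (fun z => ‖F z‖ ^ p) (ball 0 1) :=
  hF.continuousOn.norm.rpow_const fun _ _ => Or.inr hp.le

lemma ball_eq : {z : ℂ | ‖z - 0‖ ∈ Ico (0 : ℝ) 1} = ball 0 1 := by
  ext z
  simp

lemma av_cont {H : ℂ → ℝ} (hH : ContinuousOn H (ball 0 1)) :
    ContinuousOn (fun r => av r H) (Ico 0 1) := by
  unfold av
  exact ContinuousOn.circleAverage (by rwa [ball_eq]) fun r hr => hr.1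

theorem main : S_ALLR := by
  intro p ρ hp hρ φ hφ ψ hψ F hF hyp r hr hrρ
  by_contra hcon
  push Not at hcon
  have hr1 : r < 1 := hrρ.trans_le hρ
  have c1 := av_cont (cont1 hp hφ hψ hF)
  have c2 := av_cont (cont2 hp hF)
  have hmem : r ∈ Ico (0 : ℝ) 1 := ⟨hr.le, hr1⟩
  have hev : ∀ᶠ s in 𝓝[Ico (0 : ℝ) 1] r, av s (fun z => ‖F z‖ ^ p) < av s (fun z => ‖F (φ z) * ψ z‖ ^ p) :=
    (c2 r hmem).eventually_lt (c1 r hmem) hcon
  have hnhds : Ico (0 : ℝ) 1 ∈ 𝓝 r := Ico_mem_nhds hr hr1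
  rw [nhdsWithin_eq_nhds.2 hnhds] at hev
  rw [Metric.eventually_nhds_iff] at hev
  obtain ⟨ε, hε, hev⟩ := hev
  -- zeros for all radii near `r`
  set a := max (r / 2) (r - ε / 2) with ha
  have har : a < r := max_lt (by linarith) (by linarith)
  have ha0 : 0 < a := lt_of_lt_of_le (by linarith) (le_max_left _ _)
  have hz : ∀ s ∈ Ioo a r, ∃ z : ℂ, ‖z‖ = s ∧ F z = 0 := by
    intro s hs
    by_contra h
    push Not at h
    have h1 := hyp s (ha0.trans hs.1) (hs.2.trans hrρ) h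
    have h2 : dist s r < ε := by
      rw [Real.dist_eq, abs_lt]
      have : r - ε / 2 ≤ a := le_max_right _ _
      have := hs.1
      have := hs.2
      constructor <;> linarith
    have := hev h2
    linarith
  choose! Z hZ1 hZ2 using hz
  have hinf : (Z '' Ioo a r).Infinite := by
    apply Set.Infinite.image
    · intro s hs t ht hst
      rw [← hZ1 s hs, ← hZ1 t ht, hst]
    · exact Set.Ioo_infinite har
  have hsub : Z '' Ioo a r ⊆ closedBall 0 r := by
    rintro _ ⟨s, hs, rfl⟩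
    rw [mem_closedBall_zero_iff, hZ1 s hs]
    exact hs.2.le
  obtain ⟨x, hx, hacc⟩ := hinf.exists_accPt_of_subset_isCompact (isCompact_closedBall 0 r) hsub
  rw [accPt_iff_frequently_nhdsNE] at hacc
  have hfreq : ∃ᶠ z in 𝓝[≠] x, F z = 0 := by
    refine hacc.mono ?_
    rintro _ ⟨s, hs, rfl⟩
    exact hZ2 s hs
  have hx1 : x ∈ ball (0 : ℂ) 1 := by
    rw [mem_ball_zero_iff]
    rw [mem_closedBall_zero_iff] at hx
    linarith
  have hana : AnalyticOnNhd ℂ F (ball 0 1) := hF.analyticOnNhd isOpen_ball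
  have hzero := hana.eqOn_zero_of_preconnected_of_frequently_eq_zero
    (convex_ball (0 : ℂ) 1).isPreconnected hx1 hfreq
  have hmem' : ∀ z ∈ sphere (0 : ℂ) |r|, z ∈ ball (0 : ℂ) 1 := by
    intro z hz
    rw [mem_sphere_zero_iff_norm, abs_of_pos hr] at hz
    rw [mem_ball_zero_iff, hz]
    exact hr1
  have e1 : av r (fun z => ‖F z‖ ^ p) = 0 := by
    unfold av
    apply circleAverage_const_on_circle
    intro z hz
    rw [hzero (hmem' z hz)]
    simp [hp.ne']
  have e2 : av r (fun z => ‖F (φ z) * ψ z‖ ^ p) = 0 := by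
    unfold av
    apply circleAverage_const_on_circle
    intro z hz
    rw [hzero (hφ.maps (hmem' z hz))]
    simp [hp.ne']
  linarith

end Pool.Agent.W797.SR.Allr
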