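import Mathlib
import Pool.Agent.W769.SR.Stm

set_option autoImplicit false

namespace Pool.Agent.W797.SR.Nz

open Pool.Agent.W769.SR Metric Set Filter Topology Real

lemma sphere_ball {r : ℝ} (_hr : 0 < r) (hr1 : r < 1) {z : ℂ} (hz : z ∈ sphere (0 : ℂ) r) :
    z ∈ ball (0 : ℂ) 1 := by
  rw [mem_sphere_zero_iff_norm] at hz
  rw [mem_ball_zero_iff, hz]
  exact hr1

lemma schw {φ : ℂ → ℂ} (hφ : SelfMap φ) {z : ℂ} (hz : z ∈ ball (0 : ℂ) 1) : ‖φ z‖ ≤ ‖z‖ := by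
  apply Complex.norm_le_norm_of_mapsTo_ball hφ.diff (hφ.maps.mono_right ball_subset_closedBall)
    hφ.zero
  rwa [mem_ball_zero_iff] at hz

lemma phi_R {r R : ℝ} (hr : 0 < r) (hr1 : r < 1) (hrR : r < R) {φ : ℂ → ℂ} (hφ : SelfMap φ) :
    MapsTo φ (sphere 0 r) (ball 0 R) := by
  intro z hz
  have h1 := schw hφ (sphere_ball hr hr1 hz)
  rw [mem_sphere_zero_iff_norm] at hz
  rw [mem_ball_zero_iff]
  linarith

lemma sph_R {r R : ℝ} (hrR : r < R) : sphere (0 : ℂ) r ⊆ ball 0 R := by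
  intro z hz
  rw [mem_sphere_zero_iff_norm] at hz
  rw [mem_ball_zero_iff]
  linarith

lemma phi_cont {r : ℝ} (hr : 0 < r) (hr1 : r < 1) {φ : ℂ → ℂ} (hφ : SelfMap φ) :
    ContinuousOn φ (sphere 0 r) :=
  hφ.diff.continuousOn.mono fun _ hz => sphere_ball hr hr1 hz

lemma dphi_cont {r : ℝ} (hr : 0 < r) (hr1 : r < 1) {φ : ℂ → ℂ} (hφ : SelfMap φ) :
    ContinuousOn (deriv φ) (sphere 0 r) :=
  (hφ.diff.deriv isOpen_ball).continuousOn.mono fun _ hz => sphere_ball hr hr1 hz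

lemma comp_cont {r R : ℝ} (hr : 0 < r) (hr1 : r < 1) (hrR : r < R) {φ : ℂ → ℂ} (hφ : SelfMap φ)
    {G : ℂ → ℂ} (hG : DifferentiableOn ℂ G (ball 0 R)) :
    ContinuousOn (fun z => G (φ z)) (sphere 0 r) :=
  hG.continuousOn.comp (phi_cont hr hr1 hφ) (phi_R hr hr1 hrR hφ)

lemma ci {r : ℝ} (hr : 0 < r) {H : ℂ → ℝ} (hH : ContinuousOn H (sphere 0 r)) :
    CircleIntegrable H 0 r := hH.circleIntegrable hr.le

lemma av_mono {r : ℝ} (hr : 0 < r) {H K : ℂ → ℝ} (hH : ContinuousOn H (sphere 0 r))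
    (hK : ContinuousOn K (sphere 0 r)) (h : ∀ z ∈ sphere (0 : ℂ) r, H z ≤ K z) : av r H ≤ av r K := by
  unfold av
  apply circleAverage_mono (ci hr hH) (ci hr hK)
  rwa [abs_of_pos hr]

lemma av_congr {r : ℝ} (hr : 0 < r) {H K : ℂ → ℝ} (h : ∀ z ∈ sphere (0 : ℂ) r, H z = K z) :
    av r H = av r K := by
  unfold av
  apply circleAverage_congr_sphere
  rw [abs_of_pos hr]
  exact h

lemma av_lin {r : ℝ} (hr : 0 < r) {H K : ℂ → ℝ} (hH : ContinuousOn H (sphere 0 r))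
    (hK : ContinuousOn K (sphere 0 r)) (a b : ℝ) :
    av r (fun z => a * H z + b * K z) = a * av r H + b * av r K := by
  unfold av
  have h1 : ContinuousOn (fun z => a * H z) (sphere 0 r) := continuousOn_const.mul hH
  have h2 : ContinuousOn (fun z => b * K z) (sphere 0 r) := continuousOn_const.mul hK
  rw [circleAverage_fun_add (ci hr h1) (ci hr h2)]
  have e1 := circleAverage_fun_smul (𝕜 := ℝ) (a := a) (f := H) (c := 0) (R := r)
  have e2 := circleAverage_fun_smul (𝕜 := ℝ) (a := b) (f := K) (c := 0) (R := r)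
  simp only [smul_eq_mul] at e1 e2
  rw [e1, e2]

lemma young {x p q : ℝ} (hx : 0 ≤ x) (hp : 0 < p) (hpq : p ≤ q) :
    x ^ p ≤ p / q * x ^ q + (1 - p / q) := by
  have hq : 0 < q := hp.trans_le hpq
  have h1 : p / q ≤ 1 := (div_le_one hq).2 hpq
  have h := Real.geom_mean_le_arith_mean2_weighted (w₁ := p / q) (w₂ := 1 - p / q) (p₁ := x ^ q)
    (p₂ := 1) (by positivity) (by linarith) (by positivity) zero_le_one (by ring)
  rw [← Real.rpow_mul hx, Real.one_rpow, mul_one, mul_one, mul_div_cancel₀ p hq.ne'] at h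
  exact h

theorem main (h4 : S_L2) (h5 : S_FACT) (h6 : S_POW) (h7 : S_APPR) : S_NZ ∧ S_NZ0 := by
  have base : ∀ p r : ℝ, 0 < p → 0 < r → r < 1 → ∀ F : ℂ → ℂ, DifferentiableOn ℂ F (ball 0 1) →
      (∀ z, ‖z‖ = r → F z ≠ 0) → ∃ (R : ℝ) (F₂ : ℂ → ℂ), r < R ∧ R ≤ 1 ∧
      DifferentiableOn ℂ F₂ (ball 0 R) ∧ (∀ z ∈ ball (0 : ℂ) R, F₂ z ≠ 0) ∧
      (∀ z, ‖z‖ ≤ r → ‖F z‖ ≤ ‖F₂ z‖) ∧ (∀ z, ‖z‖ = r → ‖F z‖ = ‖F₂ z‖) ∧
      (∀ φ : ℂ → ℂ, SelfMap φ → av r (fun z => ‖F₂ (φ z)‖ ^ p) ≤ av r (fun z => ‖F₂ z‖ ^ p)) := by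
    intro p r hp hr hr1 F hF hnz
    obtain ⟨R, F₂, hrR, hR1, hF₂, hnz₂, hle, heq⟩ := h5 F r hr hr1 hF hnz
    refine ⟨R, F₂, hrR, hR1, hF₂, hnz₂, hle, heq, ?_⟩
    intro φ hφ
    obtain ⟨G, hG, hGn⟩ := h6 F₂ R (p / 2) (hr.trans hrR) hF₂ hnz₂
    have h := (h4 φ hφ G R r hr hrR hR1 hG).1
    have e1 : av r (fun z => ‖G (φ z)‖ ^ 2) = av r (fun z => ‖F₂ (φ z)‖ ^ p) := by
      apply av_congr hr
      intro z hz
      rw [hGn _ (phi_R hr hr1 hrR hφ hz), ← Real.rpow_natCast, ← Real.rpow_mul (norm_nonneg _)]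
      congr 1
      push_cast
      ring
    have e2 : av r (fun z => ‖G z‖ ^ 2) = av r (fun z => ‖F₂ z‖ ^ p) := by
      apply av_congr hr
      intro z hz
      rw [hGn _ (sph_R hrR hz), ← Real.rpow_natCast, ← Real.rpow_mul (norm_nonneg _)]
      congr 1
      push_cast
      ring
    rwa [e1, e2] at h
  constructor
  · intro p q r hp hpq hr hr1 hPI φ hφ F hF hnz
    have hq : 0 < q := hp.trans_le hpq
    obtain ⟨R, F₂, hrR, hR1, hF₂, hnz₂, hle, heq, hL⟩ := base p r hp hr hr1 F hF hnz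
    obtain ⟨G, hG, hGn⟩ := h6 F₂ R (p / q) (hr.trans hrR) hF₂ hnz₂
    have hA := h7 q r R hq hr hrR hR1 hPI φ hφ G hG
    have e1 : av r (fun z => ‖G (φ z) * deriv φ z‖ ^ q)
        = av r (fun z => ‖F₂ (φ z)‖ ^ p * ‖deriv φ z‖ ^ q) := by
      apply av_congr hr
      intro z hz
      rw [norm_mul, Real.mul_rpow (norm_nonneg _) (norm_nonneg _),
        hGn _ (phi_R hr hr1 hrR hφ hz), ← Real.rpow_mul (norm_nonneg _), div_mul_cancel₀ p hq.ne']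
    have e2 : av r (fun z => ‖G z‖ ^ q) = av r (fun z => ‖F₂ z‖ ^ p) := by
      apply av_congr hr
      intro z hz
      rw [hGn _ (sph_R hrR hz), ← Real.rpow_mul (norm_nonneg _), div_mul_cancel₀ p hq.ne']
    rw [e1, e2] at hA
    have cF : ContinuousOn (fun z => F (φ z)) (sphere 0 r) := comp_cont hr hr1 hr1 hφ hF
    have cF2 : ContinuousOn (fun z => F₂ (φ z)) (sphere 0 r) := comp_cont hr hr1 hrR hφ hF₂
    have cd := dphi_cont hr hr1 hφ
    have c1 : ContinuousOn (fun z => ‖F (φ z) * deriv φ z‖ ^ p) (sphere 0 r) :=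
      (cF.mul cd).norm.rpow_const fun _ _ => Or.inr hp.le
    have c2 : ContinuousOn (fun z => ‖F₂ (φ z)‖ ^ p * ‖deriv φ z‖ ^ q) (sphere 0 r) :=
      (cF2.norm.rpow_const fun _ _ => Or.inr hp.le).mul (cd.norm.rpow_const fun _ _ => Or.inr hq.le)
    have c3 : ContinuousOn (fun z => ‖F₂ (φ z)‖ ^ p) (sphere 0 r) :=
      cF2.norm.rpow_const fun _ _ => Or.inr hp.le
    have c4 : ContinuousOn (fun z => p / q * (‖F₂ (φ z)‖ ^ p * ‖deriv φ z‖ ^ q)
        + (1 - p / q) * ‖F₂ (φ z)‖ ^ p) (sphere 0 r) :=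
      (continuousOn_const.mul c2).add (continuousOn_const.mul c3)
    have hpq1 : p / q ≤ 1 := (div_le_one hq).2 hpq
    have hpq0 : 0 ≤ p / q := by positivity
    have h1 : av r (fun z => ‖F (φ z) * deriv φ z‖ ^ p)
        ≤ av r (fun z => p / q * (‖F₂ (φ z)‖ ^ p * ‖deriv φ z‖ ^ q) + (1 - p / q) * ‖F₂ (φ z)‖ ^ p) := by
      apply av_mono hr c1 c4
      intro z hz
      have hz' : ‖φ z‖ ≤ r := by
        have := schw hφ (sphere_ball hr hr1 hz)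
        rwa [mem_sphere_zero_iff_norm.1 hz] at this
      have hy := young (norm_nonneg (deriv φ z)) hp hpq
      have hf : ‖F (φ z)‖ ^ p ≤ ‖F₂ (φ z)‖ ^ p :=
        Real.rpow_le_rpow (norm_nonneg _) (hle _ hz') hp.le
      rw [norm_mul, Real.mul_rpow (norm_nonneg _) (norm_nonneg _)]
      have hB : 0 ≤ ‖F₂ (φ z)‖ ^ p := by positivity
      calc ‖F (φ z)‖ ^ p * ‖deriv φ z‖ ^ p ≤ ‖F₂ (φ z)‖ ^ p * ‖deriv φ z‖ ^ p := by gcongr
        _ ≤ ‖F₂ (φ z)‖ ^ p * (p / q * ‖deriv φ z‖ ^ q + (1 - p / q)) := by gcongr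
        _ = _ := by ring
    rw [av_lin hr c2 c3] at h1
    have e3 : av r (fun z => ‖F z‖ ^ p) = av r (fun z => ‖F₂ z‖ ^ p) := by
      apply av_congr hr
      intro z hz
      rw [heq z (mem_sphere_zero_iff_norm.1 hz)]
    rw [e3]
    have hL' := hL φ hφ
    have h2 : p / q * av r (fun z => ‖F₂ (φ z)‖ ^ p * ‖deriv φ z‖ ^ q)
        ≤ p / q * av r (fun z => ‖F₂ z‖ ^ p) := mul_le_mul_of_nonneg_left hA hpq0
    have h3 : (1 - p / q) * av r (fun z => ‖F₂ (φ z)‖ ^ p)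
        ≤ (1 - p / q) * av r (fun z => ‖F₂ z‖ ^ p) :=
      mul_le_mul_of_nonneg_left hL' (by linarith)
    linarith
  · intro p r hp hr hr1 φ hφ F hF hnz
    obtain ⟨R, F₂, hrR, hR1, hF₂, hnz₂, hle, heq, hL⟩ := base p r hp hr hr1 F hF hnz
    have cF : ContinuousOn (fun z => F (φ z)) (sphere 0 r) := comp_cont hr hr1 hr1 hφ hF
    have cF2 : ContinuousOn (fun z => F₂ (φ z)) (sphere 0 r) := comp_cont hr hr1 hrR hφ hF₂
    have h1 : av r (fun z => ‖F (φ z)‖ ^ p) ≤ av r (fun z => ‖F₂ (φ z)‖ ^ p) := by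
      apply av_mono hr (cF.norm.rpow_const fun _ _ => Or.inr hp.le)
        (cF2.norm.rpow_const fun _ _ => Or.inr hp.le)
      intro z hz
      have hz' : ‖φ z‖ ≤ r := by
        have := schw hφ (sphere_ball hr hr1 hz)
        rwa [mem_sphere_zero_iff_norm.1 hz] at this
      exact Real.rpow_le_rpow (norm_nonneg _) (hle _ hz') hp.le
    have e3 : av r (fun z => ‖F z‖ ^ p) = av r (fun z => ‖F₂ z‖ ^ p) := by
      apply av_congr hr
      intro z hz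
      rw [heq z (mem_sphere_zero_iff_norm.1 hz)]
    rw [e3]
    exact h1.trans (hL φ hφ)

end Pool.Agent.W797.SR.Nz
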