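import Mathlib
import Pool.Agent.W769.SR.Stm
import Pool.Agent.W797.SR.Nz

set_option autoImplicit false

namespace Pool.Agent.W797.SR.Appr

open Pool.Agent.W769.SR Metric Set Filter Topology Real
open Pool.Agent.W797.SR.Nz

/-- approximation by polynomials, uniform on the closed disc -/
lemma polys {r R : ℝ} (hr : 0 < r) (hrR : r < R) {G : ℂ → ℂ} (hG : DifferentiableOn ℂ G (ball 0 R)) :
    ∃ P : ℕ → Polynomial ℂ, TendstoUniformlyOn (fun n z => (P n).eval z) G atTop (closedBall 0 r) := by
  obtain ⟨s, hrs, hsR⟩ := exists_between hrR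
  obtain ⟨t, hst, htR⟩ := exists_between hsR
  have hs : 0 < s := hr.trans hrs
  have ht : 0 < t := hs.trans hst
  lift s to NNReal using hs.le
  lift t to NNReal using ht.le
  have hd : DifferentiableOn ℂ G (closedBall 0 (t : ℝ)) := hG.mono (closedBall_subset_ball htR)
  have hps := hd.hasFPowerSeriesOnBall (by exact_mod_cast ht)
  have hu := hps.tendstoUniformlyOn' (r' := s) (by exact_mod_cast hst)
  set p := cauchyPowerSeries G 0 (t : ℝ)
  refine ⟨fun n => ∑ k ∈ Finset.range n, Polynomial.C (p.coeff k) * Polynomial.X ^ k, ?_⟩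
  have hu' := hu.mono (closedBall_subset_ball hrs)
  refine hu'.congr ?_
  refine Eventually.of_forall fun n z _ => ?_
  simp only [sub_zero, FormalMultilinearSeries.partialSum, Polynomial.eval_finsetSum,
    Polynomial.eval_mul, Polynomial.eval_C, Polynomial.eval_pow, Polynomial.eval_X]
  apply Finset.sum_congr rfl
  intro k _
  rw [FormalMultilinearSeries.apply_eq_pow_smul_coeff, smul_eq_mul, mul_comm]

lemma lim {r : ℝ} (hr : 0 < r) {h : ℕ → ℂ → ℝ} {H : ℂ → ℝ} (M : ℝ)
    (hc : ∀ n, ContinuousOn (h n) (sphere 0 r))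
    (hM : ∀ᶠ n in atTop, ∀ z ∈ sphere (0 : ℂ) r, |h n z| ≤ M)
    (hl : ∀ z ∈ sphere (0 : ℂ) r, Tendsto (fun n => h n z) atTop (𝓝 (H z))) :
    Tendsto (fun n => av r (h n)) atTop (𝓝 (av r H)) := by
  unfold av circleAverage
  apply Tendsto.const_smul
  have hmem : ∀ t : ℝ, circleMap 0 r t ∈ sphere (0 : ℂ) r := fun t =>
    circleMap_mem_sphere 0 hr.le t
  apply intervalIntegral.tendsto_integral_filter_of_dominated_convergence (fun _ => M)
  · refine Eventually.of_forall fun n => ?_
    apply Continuous.aestronglyMeasurable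
    exact (hc n).comp_continuous (continuous_circleMap 0 r) hmem
  · filter_upwards [hM] with n hn
    refine Eventually.of_forall fun t _ => ?_
    exact hn _ (hmem t)
  · exact intervalIntegrable_const
  · refine Eventually.of_forall fun t _ => ?_
    exact hl _ (hmem t)

theorem main : S_APPR := by
  intro q r R hq hr hrR hR1 hPI φ hφ G hG
  have hr1 : r < 1 := hrR.trans_le hR1
  obtain ⟨P, hP⟩ := polys hr hrR hG
  have cd := dphi_cont hr hr1 hφ
  have hφr : ∀ z ∈ sphere (0 : ℂ) r, φ z ∈ closedBall (0 : ℂ) r := by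
    intro z hz
    have := schw hφ (sphere_ball hr hr1 hz)
    rw [mem_sphere_zero_iff_norm.1 hz] at this
    rwa [mem_closedBall_zero_iff]
  -- bounds
  have hGc : ContinuousOn G (closedBall 0 r) := hG.continuousOn.mono (closedBall_subset_ball hrR)
  obtain ⟨M, hM⟩ := (isCompact_closedBall (0 : ℂ) r).exists_bound_of_continuousOn hGc
  obtain ⟨M', hM'⟩ := (isCompact_sphere (0 : ℂ) r).exists_bound_of_continuousOn cd
  have hM0 : 0 ≤ M := (norm_nonneg _).trans (hM 0 (by simp [hr.le]))
  have hM'0 : 0 ≤ M' := (norm_nonneg _).trans (hM' (r : ℂ) (by simp [abs_of_pos hr]))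
  have hb : ∀ᶠ n in atTop, ∀ z ∈ closedBall (0 : ℂ) r, ‖(P n).eval z‖ ≤ M + 1 := by
    have := Metric.tendstoUniformlyOn_iff.1 hP 1 one_pos
    filter_upwards [this] with n hn z hz
    have h1 := hn z hz
    rw [dist_eq_norm] at h1
    have h2 : ‖(P n).eval z‖ ≤ ‖G z‖ + ‖G z - (P n).eval z‖ := by
      have := norm_sub_norm_le ((P n).eval z) (G z)
      rw [norm_sub_rev] at this
      linarith
    have := hM z hz
    linarith
  have hpt : ∀ z ∈ closedBall (0 : ℂ) r, Tendsto (fun n => (P n).eval z) atTop (𝓝 (G z)) :=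
    fun z hz => hP.tendsto_at hz
  have l1 : Tendsto (fun n => av r (fun z => ‖(P n).eval (φ z) * deriv φ z‖ ^ q)) atTop
      (𝓝 (av r (fun z => ‖G (φ z) * deriv φ z‖ ^ q))) := by
    apply lim hr (((M + 1) * M') ^ q)
    · intro n
      have : ContinuousOn (fun z => (P n).eval (φ z)) (sphere 0 r) :=
        (P n).continuous.comp_continuousOn (phi_cont hr hr1 hφ)
      exact (this.mul cd).norm.rpow_const fun _ _ => Or.inr hq.le
    · filter_upwards [hb] with n hn z hz
      rw [abs_of_nonneg (by positivity)]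
      apply Real.rpow_le_rpow (norm_nonneg _) _ hq.le
      rw [norm_mul]
      exact mul_le_mul (hn _ (hφr z hz)) (hM' z hz) (norm_nonneg _) (by linarith)
    · intro z hz
      have h1 : Tendsto (fun n => ‖(P n).eval (φ z) * deriv φ z‖) atTop
          (𝓝 ‖G (φ z) * deriv φ z‖) := ((hpt _ (hφr z hz)).mul_const _).norm
      exact h1.rpow_const (Or.inr hq.le)
  have l2 : Tendsto (fun n => av r (fun z => ‖(P n).eval z‖ ^ q)) atTop
      (𝓝 (av r (fun z => ‖G z‖ ^ q))) := by
    apply lim hr ((M + 1) ^ q)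
    · intro n
      exact (P n).continuous.continuousOn.norm.rpow_const fun _ _ => Or.inr hq.le
    · filter_upwards [hb] with n hn z hz
      rw [abs_of_nonneg (by positivity)]
      exact Real.rpow_le_rpow (norm_nonneg _) (hn z (sphere_subset_closedBall hz)) hq.le
    · intro z hz
      exact ((hpt _ (sphere_subset_closedBall hz)).norm).rpow_const (Or.inr hq.le)
  exact le_of_tendsto_of_tendsto' l1 l2 fun n => hPI φ hφ (P n)

end Pool.Agent.W797.SR.Appr
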